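import Pool.Agent.Y588.KF.Cl
import Pool.Agent.Y588.KF.Ell
import Pool.Agent.Y588.KF.Fin
import Pool.Agent.Y588.KF.No

/-!
# An optimal colouring of a Borel graph with uncountable colouring number, without ultrafilters
or Vitali sets

There is a Borel graph with chromatic number 3 and uncountable colouring number that has a
3-colouring in a countable transitive model of ZF + DC that contains no nonprincipal ultrafilter
on the natural numbers and no transversal of the equivalence relation of almost equality on the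
subsets of the natural numbers.
-/

set_option autoImplicit false

namespace Pool.Agent.Results.MP_564ab4_lc.UncountableColouringNumber

open Pool.Agent.W868 Pool.Agent.W910.SY Pool.Agent.W910.BG Pool.Agent.Y588.KF

/-- The graph `Γ` has countable colouring number: for some well-ordering of the vertices, every
vertex has only finitely many smaller neighbours. -/
def CountableCol {V : Type} (Γ : SimpleGraph V) : Prop :=
  ∃ r : V → V → Prop, IsWellOrder V r ∧ ∀ y, {x | Γ.Adj x y ∧ r x y}.Finite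

theorem result : ∃ Γ : SimpleGraph (ℕ → ℕ),
    MeasurableSet {p : (ℕ → ℕ) × (ℕ → ℕ) | Γ.Adj p.1 p.2} ∧
    Γ.Colorable 3 ∧ ¬ Γ.Colorable 2 ∧ ¬ CountableCol Γ ∧
    (∀ x y, Γ.Adj x y → ∃ z, Γ.Adj x z ∧ Γ.Adj y z) ∧
    (∀ (k : ℕ) (c : Γ.Coloring (Fin k)), ¬ Measurable c) ∧
    (∀ (Y : Type) [MeasurableSpace Y] [StandardBorelSpace Y] (Δ : SimpleGraph Y),
      Δ.Colorable 3 → CountableCol Δ → ∀ h : (ℕ → ℕ) → Y, Measurable h →
        ∃ x y, Γ.Adj x y ∧ ¬ Δ.Adj (h x) (h y)) ∧
    ∀ z : ℕ → ℕ, ∃ M : Set ZFSet.{0}, M.Countable ∧ IsZF M ∧ DC M ∧ code z ∈ M ∧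
      (∃ c ∈ M, IsColk M Γ 3 c) ∧ (¬ ∃ U ∈ M, IsUlt M U) ∧ ¬ ∃ T ∈ M, IsTr M T := by
  refine ⟨G, borel_G, colorable_three, not_colorable_two, ?_, fun _ _ h => triangle h, no_borel,
    ?_, fun z => model3 fam z⟩
  · rintro ⟨r, hr, h⟩
    obtain ⟨y, hy⟩ := uncountable_col r
    exact hy (h y)
  · intro Y _ _ Δ hΔ ⟨r, hr, h1⟩ h hm
    by_contra hcon
    push Not at hcon
    exact no_hom Δ hΔ r h1 h hm hcon

end Pool.Agent.Results.MP_564ab4_lc.UncountableColouringNumber
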